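import Mathlib
import Pool.Agent.H376R3.PC.Defs

/-!
# Pseudocompact abelian groups: task PC5, topological lemmas (helper526 for helper376)
-/

set_option autoImplicit false

universe u

namespace Pool.Agent.H526R3.PC5

open Cardinal Topology Set Pool.Agent.H376R3.PC

section Top

variable {K : Type u} [AddCommGroup K] [TopologicalSpace K] [IsTopologicalAddGroup K]

theorem exists_half (U : Set K) (hU : U ∈ 𝓝 (0 : K)) :
    ∃ W : Set K, IsOpen W ∧ (0 : K) ∈ W ∧ W ⊆ U ∧ ∀ x ∈ W, ∀ y ∈ W, x - y ∈ U := by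
  have h : Filter.Tendsto (fun p : K × K => p.1 - p.2) (𝓝 ((0 : K), (0 : K))) (𝓝 (0 : K)) := by
    have := (continuous_sub (G := K)).tendsto ((0 : K), (0 : K))
    simpa using this
  have h1 := h hU
  rw [Filter.mem_map, nhds_prod_eq, Filter.mem_prod_iff] at h1
  obtain ⟨A, hA, B, hB, hAB⟩ := h1
  obtain ⟨W, hW, hWo, hW0⟩ := mem_nhds_iff.1 (Filter.inter_mem (Filter.inter_mem hA hB) hU)
  refine ⟨W, hWo, hW0, fun x hx => (hW hx).2, fun x hx y hy => ?_⟩
  exact hAB (Set.mk_mem_prod (hW hx).1.1 (hW hy).1.2)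

/-- countably many neighbourhoods of `0` contain a closed `G_delta` subgroup. -/
theorem exists_gdSub (O : ℕ → Set K) (hO : ∀ n, O n ∈ 𝓝 (0 : K)) :
    ∃ Q : AddSubgroup K, GdSub Q ∧ ∀ n, (Q : Set K) ⊆ O n := by
  have hstep : ∀ (n : ℕ) (U : {U : Set K // U ∈ 𝓝 (0 : K)}),
      ∃ W : {U : Set K // U ∈ 𝓝 (0 : K)}, IsOpen W.1 ∧ W.1 ⊆ U.1 ∧ W.1 ⊆ O n ∧
        ∀ x ∈ W.1, ∀ y ∈ W.1, x - y ∈ U.1 := by
    intro n U
    obtain ⟨W, hWo, hW0, hWU, hWs⟩ := exists_half (U.1 ∩ O n) (Filter.inter_mem U.2 (hO n))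
    exact ⟨⟨W, hWo.mem_nhds hW0⟩, hWo, fun x hx => (hWU hx).1, fun x hx => (hWU hx).2,
      fun x hx y hy => (hWs x hx y hy).1⟩
  choose F hFo hFU hFO hFs using hstep
  let V : ℕ → {U : Set K // U ∈ 𝓝 (0 : K)} := fun n => Nat.rec (F 0 ⟨univ, Filter.univ_mem⟩)
    (fun n U => F (n + 1) U) n
  have hV1 : ∀ n, V (n + 1) = F (n + 1) (V n) := fun n => rfl
  have hVo : ∀ n, IsOpen (V n).1 := by
    intro n
    cases n with
    | zero => exact hFo _ _
    | succ n => rw [hV1]; exact hFo _ _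
  have hV0 : ∀ n, (0 : K) ∈ (V n).1 := fun n => mem_of_mem_nhds (V n).2
  have hVO : ∀ n, (V n).1 ⊆ O n := by
    intro n
    cases n with
    | zero => exact hFO _ _
    | succ n => rw [hV1]; exact hFO _ _
  have hVs : ∀ n, ∀ x ∈ (V (n + 1)).1, ∀ y ∈ (V (n + 1)).1, x - y ∈ (V n).1 := by
    intro n
    rw [hV1]; exact hFs _ _
  let Q : AddSubgroup K :=
    { carrier := ⋂ n, (V n).1
      zero_mem' := mem_iInter.2 hV0
      add_mem' := by
        intro a b ha hb
        rw [mem_iInter] at ha hb ⊢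
        intro n
        have hb' : 0 - b ∈ (V (n + 1)).1 := hVs (n + 1) 0 (hV0 (n + 1 + 1)) b (hb (n + 1 + 1))
        have := hVs n a (ha (n + 1)) (0 - b) hb'
        simpa using this
      neg_mem' := by
        intro a ha
        rw [mem_iInter] at ha ⊢
        intro n
        have := hVs n 0 (hV0 (n + 1)) a (ha (n + 1))
        simpa using this }
  have hQ : (Q : Set K) = ⋂ n, (V n).1 := rfl
  refine ⟨Q, ⟨?_, ?_⟩, ?_⟩
  · rw [← closure_subset_iff_isClosed]
    intro x hx
    rw [hQ, mem_iInter]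
    intro n
    -- `x - W` is a neighbourhood of `x`, with `W = V (n + 2)`
    have hc : Continuous fun y : K => x - y := continuous_const.sub continuous_id
    have hW : (fun y : K => x - y) ⁻¹' (V (n + 1)).1 ∈ 𝓝 x := by
      apply hc.continuousAt.preimage_mem_nhds
      rw [sub_self]
      exact (V (n + 1)).2
    obtain ⟨y, hy1, hy2⟩ := mem_closure_iff_nhds.1 hx _ hW
    have hy2' : y ∈ (Q : Set K) := hy2
    have hny : -y ∈ Q := Q.neg_mem hy2'
    have hny' : -y ∈ (⋂ n, (V n).1) := hny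
    rw [mem_iInter] at hny'
    have := hVs n (x - y) hy1 (-y) (hny' (n + 1))
    simpa using this
  · rw [hQ]
    exact IsGδ.iInter_of_isOpen hVo
  · intro n x hx
    rw [hQ, mem_iInter] at hx
    exact hVO n (hx n)

theorem exists_gdSub_of_isGδ (S : Set K) (hS : IsGδ S) (h0 : (0 : K) ∈ S) :
    ∃ Q : AddSubgroup K, GdSub Q ∧ (Q : Set K) ⊆ S := by
  obtain ⟨O, hO, rfl⟩ := hS.eq_iInter_nat
  rw [mem_iInter] at h0
  obtain ⟨Q, hQ, hQO⟩ := exists_gdSub O fun n => (hO n).mem_nhds (h0 n)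
  exact ⟨Q, hQ, subset_iInter hQO⟩

/-- a coset of a closed `G_delta` subgroup inside a `G_delta` set. -/
theorem exists_coset (S : Set K) (hS : IsGδ S) (x : K) (hx : x ∈ S) :
    ∃ Q : AddSubgroup K, GdSub Q ∧ ∀ q ∈ Q, x + q ∈ S := by
  have hc : Continuous fun y : K => x + y := continuous_const.add continuous_id
  obtain ⟨Q, hQ, hQS⟩ := exists_gdSub_of_isGδ ((fun y : K => x + y) ⁻¹' S)
    (hS.preimage hc) (by simpa using hx)
  exact ⟨Q, hQ, fun q hq => hQS hq⟩

omit [IsTopologicalAddGroup K] in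
theorem GdSub.inf {P Q : AddSubgroup K} (hP : GdSub P) (hQ : GdSub Q) : GdSub (P ⊓ Q) := by
  refine ⟨?_, ?_⟩
  · rw [AddSubgroup.coe_inf]; exact hP.1.inter hQ.1
  · rw [AddSubgroup.coe_inf]; exact hP.2.inter hQ.2

/-- the coset `x + Q` is closed and `G_delta`. -/
theorem coset_closed {Q : AddSubgroup K} (hQ : GdSub Q) (x : K) :
    IsClosed {y : K | y - x ∈ Q} := by
  have hc : Continuous fun y : K => y - x := continuous_id.sub continuous_const
  exact hQ.1.preimage hc

theorem coset_isGδ {Q : AddSubgroup K} (hQ : GdSub Q) (x : K) :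
    IsGδ {y : K | y - x ∈ Q} := by
  have hc : Continuous fun y : K => y - x := continuous_id.sub continuous_const
  exact hQ.2.preimage hc

/-- the quotient by a closed `G_delta` subgroup has size at most the continuum. -/
theorem mk_quotient_le [CompactSpace K] {Q : AddSubgroup K} (hQ : GdSub Q) :
    #(K ⧸ Q) ≤ 𝔠 := by
  obtain ⟨O, hO, hQO⟩ := hQ.2.eq_iInter_nat
  have h0 : ∀ n, O n ∈ 𝓝 (0 : K) := by
    intro n
    refine (hO n).mem_nhds ?_
    have : (0 : K) ∈ ⋂ n, O n := by rw [← hQO]; exact Q.zero_mem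
    exact mem_iInter.1 this n
  choose W hWo hW0 hWU hWs using fun n => exists_half (O n) (h0 n)
  have hcov : ∀ n, ∃ c : K → ℕ, ∀ x y, c x = c y → x - y ∈ O n := by
    intro n
    have hcomp := isCompact_univ (X := K)
    obtain ⟨t, ht⟩ := hcomp.elim_finite_subcover (fun z : K => {y : K | y - z ∈ W n})
      (fun z => (hWo n).preimage (continuous_id.sub continuous_const))
      (fun z _ => mem_iUnion.2 ⟨z, by simpa using hW0 n⟩)
    have hex : ∀ x : K, ∃ z : t, x - z.1 ∈ W n := by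
      intro x
      have := ht (mem_univ x)
      obtain ⟨z, hz, h⟩ := mem_iUnion₂.1 this
      exact ⟨⟨z, hz⟩, h⟩
    choose z hz using hex
    refine ⟨fun x => (Fintype.equivFin t (z x)).1, fun x y hxy => ?_⟩
    have : z x = z y := by
      apply (Fintype.equivFin t).injective
      exact Fin.ext hxy
    have h1 := hWs n _ (hz x) _ (hz y)
    rw [this] at h1
    simpa using h1
  choose c hc using hcov
  have hinj : Function.Injective (fun a : K ⧸ Q => fun n => c n a.out) := by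
    intro a b hab
    have h1 : a.out - b.out ∈ Q := by
      have : a.out - b.out ∈ (Q : Set K) := by
        rw [hQO, mem_iInter]
        intro n
        exact hc n _ _ (congrFun hab n)
      exact this
    rw [← QuotientAddGroup.out_eq' a, ← QuotientAddGroup.out_eq' b, QuotientAddGroup.eq]
    have := Q.neg_mem h1
    rwa [neg_sub, ← neg_add_eq_sub] at this
  have h2 := Cardinal.mk_le_of_injective (Function.Injective.comp
    (g := (ULift.up.{u} : (ℕ → ℕ) → ULift.{u} (ℕ → ℕ))) ULift.up_injective hinj)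
  rw [mk_uLift] at h2
  simpa using h2

end Top

end Pool.Agent.H526R3.PC5
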