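import Mathlib
import Pool.Agent.H376R3.PC.Defs
import Pool.Agent.H526R3.PC5a

/-!
# Pseudocompact abelian groups: task PC5 (helper526 for helper376)
-/

set_option autoImplicit false

universe u

namespace Pool.Agent.H526R3.PC5

open Cardinal Topology Set Pool.Agent.H376R3.PC

theorem InjFam.mono {J : Type u} {κ μ : Cardinal.{u}} (h : InjFam J κ) (hκ : κ ≤ μ) :
    InjFam J μ := by
  obtain ⟨Δ, d, h1, h2⟩ := h
  exact ⟨Δ, d, h1.trans hκ, h2⟩

/-- the case of the first uncountable cardinal. -/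
theorem exists_omega1 : ∃ J : Type u, #J = ℵ₁ ∧ ∀ κ : Cardinal.{u}, 𝔠 ≤ κ → InjFam J κ := by
  classical
  let J : Type u := (ℵ₁ : Cardinal.{u}).ord.ToType
  have hJ : #J = ℵ₁ := by simp [J]
  have hI : ∀ a : J, (Iio a).Countable := by
    intro a
    have h1 : #(Iio a) < Order.succ ℵ₀ := by
      rw [succ_aleph0]
      exact Cardinal.mk_Iio_toType_ord_lt a
    rw [← Cardinal.le_aleph0_iff_set_countable]
    exact Order.lt_succ_iff.1 h1
  refine ⟨J, hJ, fun κ hκ => ?_⟩
  choose d hd using fun a : J => Set.countable_iff_exists_injOn.1 (hI a)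
  refine ⟨J, d, ?_, fun A hA => ?_⟩
  · rw [hJ]
    exact aleph_one_le_continuum.trans hκ
  · have : ∃ a : J, A ⊆ Iio a := by
      by_contra hcon
      push Not at hcon
      have hcov : (univ : Set J) ⊆ ⋃ a ∈ A, (Iio a ∪ {a}) := by
        intro x _
        have := hcon x
        rw [Set.not_subset] at this
        obtain ⟨a, ha, hxa⟩ := this
        rw [mem_Iio, not_lt] at hxa
        refine mem_iUnion₂.2 ⟨a, ha, ?_⟩
        rcases hxa.lt_or_eq with h | h
        · exact Or.inl h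
        · exact Or.inr h
      have hcount : (⋃ a ∈ A, (Iio a ∪ {a})).Countable :=
        hA.biUnion fun a _ => (hI a).union (Set.countable_singleton a)
      have h3 : (univ : Set J).Countable := hcount.mono hcov
      rw [← Cardinal.le_aleph0_iff_set_countable, mk_univ, hJ] at h3
      exact absurd h3 (not_le.2 aleph0_lt_aleph_one)
    obtain ⟨a, ha⟩ := this
    exact ⟨a, (hd a).mono ha⟩

section Main

variable {G K : Type u} [AddCommGroup G] [AddCommGroup K] [TopologicalSpace K]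
    [IsTopologicalAddGroup K] [CompactSpace K] [T2Space K] (ι : G →+ K)

omit [TopologicalSpace K] [IsTopologicalAddGroup K] [CompactSpace K] [T2Space K] in
theorem range_infinite (hι : Function.Injective ι) (hG : ∀ n : ℕ, 0 < n → ∃ x : G, n • x ≠ 0)
    (m : ℕ) (hm : 0 < m) : (Set.range fun x : K => m • x).Infinite := by
  intro hfin
  let H : AddSubgroup K := (nsmulAddMonoidHom (α := K) m).range
  have hH : (H : Set K) = Set.range fun x : K => m • x := by
    ext x; simp [H]
  have hHf : Finite H := by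
    have : (H : Set K).Finite := by rw [hH]; exact hfin
    exact this
  have hpos : 0 < Nat.card H := Nat.card_pos
  obtain ⟨x, hx⟩ := hG (Nat.card H * m) (Nat.mul_pos hpos hm)
  apply hx
  apply hι
  rw [map_zero, map_nsmul, mul_nsmul']
  have hmem : m • ι x ∈ H := ⟨ι x, rfl⟩
  have := card_nsmul_eq_zero' (x := (⟨m • ι x, hmem⟩ : H))
  have h2 : ((Nat.card H • (⟨m • ι x, hmem⟩ : H) : H) : K) = 0 := by rw [this]; rfl
  exact h2

theorem exists_family (h2 : TaskPC2.{u}) (hι : Function.Injective ι)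
    (hd : GdDense (Set.range ι)) (hG : ∀ n : ℕ, 0 < n → ∃ x : G, n • x ≠ 0) :
    ∃ g : (ℕ → Bool) → G, ∀ b b', b ≠ b' → ∀ n : ℕ, 0 < n → n • (g b - g b') ≠ 0 := by
  obtain ⟨Q, h, hQ, hh⟩ := h2 K (fun i => i + 1)
    (fun i => range_infinite ι hι hG (i + 1) (Nat.succ_pos i))
  have hex : ∀ b, ∃ g : G, ι g - h b ∈ Q := by
    intro b
    obtain ⟨y, hy1, g, rfl⟩ := hd _ (coset_isGδ hQ (h b)) ⟨h b, by simp⟩
    exact ⟨g, hy1⟩
  choose g hg using hex
  refine ⟨g, fun b b' hb n hn h0 => ?_⟩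
  obtain ⟨i, rfl⟩ : ∃ i, n = i + 1 := ⟨n - 1, by omega⟩
  apply hh b b' hb i
  have h3 : (i + 1) • (ι (g b) - ι (g b')) = 0 := by
    rw [← map_sub, ← map_nsmul, h0, map_zero]
  have h4 : (i + 1) • (h b - h b') =
      (i + 1) • (ι (g b) - ι (g b')) - (i + 1) • ((ι (g b) - h b) - (ι (g b') - h b')) := by
    rw [← nsmul_sub]
    congr 1
    abel
  change (i + 1) • (h b - h b') ∈ Q
  rw [h4, h3, zero_sub]
  exact Q.neg_mem (Q.nsmul_mem (Q.sub_mem (hg b) (hg b')) _)

omit [TopologicalSpace K] [IsTopologicalAddGroup K] [CompactSpace K] [T2Space K] in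
/-- cardinality of the span -/
theorem mk_span_le (s : Set G) : #(Submodule.span ℤ s) ≤ max #s ℵ₀ := by
  have hsurj : Function.Surjective (fun c : s →₀ ℤ =>
      (⟨Finsupp.linearCombination ℤ (Subtype.val : s → G) c,
        (Finsupp.mem_span_iff_linearCombination ℤ s _).2 ⟨c, rfl⟩⟩ : Submodule.span ℤ s)) := by
    rintro ⟨x, hx⟩
    obtain ⟨c, hc⟩ := (Finsupp.mem_span_iff_linearCombination ℤ s _).1 hx
    exact ⟨c, Subtype.ext hc⟩
  have h1 := Cardinal.mk_le_of_surjective hsurj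
  refine h1.trans ?_
  rcases isEmpty_or_nonempty s with h | h
  · have : Subsingleton (s →₀ ℤ) := inferInstance
    exact (Cardinal.le_one_iff_subsingleton.2 this).trans
      (one_le_aleph0.trans (le_max_right _ _))
  · rw [mk_finsupp_lift_of_infinite']
    simp

theorem continuum_le (h2 : TaskPC2.{u}) (hι : Function.Injective ι)
    (hd : GdDense (Set.range ι)) (hG : ∀ n : ℕ, 0 < n → ∃ x : G, n • x ≠ 0)
    (s : Set G) (hs : ∀ x : G, ∃ n : ℕ, 0 < n ∧ n • x ∈ Submodule.span ℤ s) : 𝔠 ≤ #s := by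
  obtain ⟨g, hg⟩ := exists_family ι h2 hι hd hG
  choose n hn hns using hs
  have hinj : Function.Injective (fun b : ULift.{u} (ℕ → Bool) =>
      ((ULift.up (n (g b.down)) : ULift.{u} ℕ),
        (⟨n (g b.down) • g b.down, hns _⟩ : Submodule.span ℤ s))) := by
    intro b b' hbb
    by_contra hne
    have hne' : b.down ≠ b'.down := fun h => hne (ULift.down_injective h)
    have e1 : n (g b.down) = n (g b'.down) := by
      have := congrArg (fun p => p.1.down) hbb
      exact this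
    have e2 : n (g b.down) • g b.down = n (g b'.down) • g b'.down := by
      have := congrArg (fun p => (p.2 : G)) hbb
      exact this
    apply hg _ _ hne' (n (g b.down)) (hn _)
    rw [nsmul_sub, sub_eq_zero, e2, e1]
  have h1 := Cardinal.mk_le_of_injective hinj
  rw [mk_prod, mk_uLift, mk_uLift] at h1
  simp only [lift_id, mk_nat, lift_aleph0] at h1
  have hb : lift.{u} #(ℕ → Bool) = 𝔠 := by simp
  rw [hb] at h1
  have h3 : (ℵ₀ : Cardinal.{u}) * #(Submodule.span ℤ s) ≤ max #s ℵ₀ := by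
    refine (mul_le_mul' le_rfl (mk_span_le s)).trans ?_
    rw [mul_eq_max le_rfl (le_max_right _ _)]
    simp
  have h4 := h1.trans h3
  rcases le_max_iff.1 h4 with h | h
  · exact h
  · exact absurd h (not_le.2 aleph0_lt_continuum)

omit [T2Space K] in
/-- the Baire category step -/
theorem exists_dense (hd : GdDense (Set.range ι)) (L : AddSubgroup G)
    (hL : ∀ x : G, ∃ n : ℕ, 0 < n ∧ n • x ∈ L) :
    ∃ (n : ℕ) (Q : AddSubgroup K), 0 < n ∧ GdSub Q ∧
      ∀ S : Set K, IsGδ S → (S ∩ Q).Nonempty → ∃ x : G, ι x ∈ S ∧ ι x ∈ Q ∧ n • x ∈ L := by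
  classical
  by_contra hcon
  push Not at hcon
  have step : ∀ (n : ℕ) (p : K × {Q : AddSubgroup K // GdSub Q}),
      ∃ q : K × {Q : AddSubgroup K // GdSub Q},
        (∀ y, y - q.1 ∈ q.2.1 → y - p.1 ∈ p.2.1) ∧
        (∀ g : G, n.factorial • g ∈ L → ι g - q.1 ∉ q.2.1) := by
    rintro n ⟨x, Q, hQ⟩
    by_cases h : ∃ g : G, n.factorial • g ∈ L ∧ ι g - x ∈ Q
    · obtain ⟨g, hgL, hgx⟩ := h
      obtain ⟨S, hS, ⟨s, hsS, hsQ⟩, hSn⟩ := hcon n.factorial Q (Nat.factorial_pos n) hQ
      obtain ⟨Q1, hQ1, hQ1S⟩ := exists_coset S hS s hsS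
      refine ⟨(ι g + s, ⟨Q1 ⊓ Q, GdSub.inf hQ1 hQ⟩), ?_, ?_⟩
      · intro y hy
        have h1 : y - (ι g + s) ∈ Q := hy.2
        have h2 : y - x = (y - (ι g + s)) + (ι g - x) + s := by abel
        change y - x ∈ Q
        rw [h2]
        exact Q.add_mem (Q.add_mem h1 hgx) hsQ
      · intro g' hg' hmem
        have h1 : ι g' - (ι g + s) ∈ Q1 := hmem.1
        have h2 : ι g' - (ι g + s) ∈ Q := hmem.2
        have e : ι (g' - g) = s + (ι g' - (ι g + s)) := by rw [map_sub]; abel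
        apply hSn (g' - g)
        · rw [e]; exact hQ1S _ h1
        · rw [e]; exact Q.add_mem hsQ h2
        · rw [nsmul_sub]; exact L.sub_mem hg' hgL
    · push Not at h
      exact ⟨(x, ⟨Q, hQ⟩), fun y hy => hy, h⟩
  choose F hF1 hF2 using step
  have htop : GdSub (⊤ : AddSubgroup K) := by
    refine ⟨?_, ?_⟩
    · simp
    · simp [IsGδ.univ]
  let P : ℕ → K × {Q : AddSubgroup K // GdSub Q} :=
    fun n => Nat.rec ((0 : K), ⟨⊤, htop⟩) (fun n p => F n p) n
  have hP : ∀ n, P (n + 1) = F n (P n) := fun n => rfl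
  let C : ℕ → Set K := fun n => {y | y - (P n).1 ∈ (P n).2.1}
  have hCc : ∀ n, IsClosed (C n) := fun n => coset_closed (P n).2.2 (P n).1
  have hCg : ∀ n, IsGδ (C n) := fun n => coset_isGδ (P n).2.2 (P n).1
  have hCd : ∀ n, C (n + 1) ⊆ C n := by
    intro n y hy
    have hy' : y - (F n (P n)).1 ∈ (F n (P n)).2.1 := hy
    exact hF1 n (P n) y hy'
  have hCn : ∀ n, (C n).Nonempty := fun n => ⟨(P n).1, by
    change (P n).1 - (P n).1 ∈ (P n).2.1
    rw [sub_self]; exact zero_mem _⟩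
  have hne := IsCompact.nonempty_iInter_of_sequence_nonempty_isCompact_isClosed C hCd hCn
    (hCc 0).isCompact hCc
  obtain ⟨y, hy, g, rfl⟩ := hd _ (IsGδ.iInter hCg) hne
  obtain ⟨m, hm, hmL⟩ := hL g
  have hmf : m.factorial • g ∈ L := by
    obtain ⟨k, hk⟩ := Nat.dvd_factorial hm le_rfl
    rw [hk, mul_comm, mul_nsmul']
    exact L.nsmul_mem hmL k
  have := mem_iInter.1 hy (m + 1)
  exact hF2 m (P m) g hmf this

omit [T2Space K] in
/-- the size of `N G`. -/
theorem mk_range_le (hι : Function.Injective ι) (Q : AddSubgroup K) (hQ : GdSub Q) (N : ℕ) :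
    #(Set.range fun x : G => N • x) ≤ 𝔠 * #(Q.map (nsmulAddMonoidHom (α := K) N)) := by
  classical
  have hex : ∀ y : (Set.range fun x : G => N • x), ∃ x : G, N • x = y.1 := fun y => y.2
  choose x hx using hex
  have hmem : ∀ y, ι (x y) - (QuotientAddGroup.mk (ι (x y)) : K ⧸ Q).out ∈ Q := by
    intro y
    rw [← neg_add_eq_sub]
    rw [← QuotientAddGroup.eq, QuotientAddGroup.out_eq']
  have hinj : Function.Injective (fun y : (Set.range fun x : G => N • x) =>
      ((QuotientAddGroup.mk (ι (x y)) : K ⧸ Q),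
       (⟨N • (ι (x y) - (QuotientAddGroup.mk (ι (x y)) : K ⧸ Q).out),
         ⟨_, hmem y, rfl⟩⟩ : Q.map (nsmulAddMonoidHom (α := K) N)))) := by
    intro y y' h
    have e1 := congrArg (fun p => p.1) h
    have e2 := congrArg (fun p => (p.2 : K)) h
    dsimp only at e1 e2
    rw [e1] at e2
    rw [nsmul_sub, nsmul_sub, sub_left_inj] at e2
    rw [← map_nsmul, ← map_nsmul] at e2
    have e3 := hι e2
    rw [hx, hx] at e3
    exact Subtype.ext e3
  refine (Cardinal.mk_le_of_injective hinj).trans ?_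
  rw [mk_prod, lift_id, lift_id]
  exact mul_le_mul' (mk_quotient_le hQ) le_rfl

omit [CompactSpace K] [T2Space K] in
/-- density in `N Q` -/
theorem dense_map (Q : AddSubgroup K) (N : ℕ) (L : AddSubgroup G)
    (hS : ∀ S : Set K, IsGδ S → (S ∩ Q).Nonempty → ∃ x : G, ι x ∈ S ∧ ι x ∈ Q ∧ N • x ∈ L) :
    GdDense {y : Q.map (nsmulAddMonoidHom (α := K) N) | ∃ x ∈ L, ι x = y} := by
  rintro S' hS' ⟨y, hy⟩
  obtain ⟨U', hU', hSU⟩ := hS'.eq_iInter_nat
  choose U hUo hUU using fun n => isOpen_induced_iff.1 (hU' n)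
  have hc : Continuous fun q : K => N • q := continuous_nsmul N
  have hSg : IsGδ (⋂ n, (fun q : K => N • q) ⁻¹' (U n)) :=
    IsGδ.iInter_of_isOpen fun n => (hUo n).preimage hc
  obtain ⟨q, hq, hqy⟩ := y.2
  have hne : ((⋂ n, (fun q : K => N • q) ⁻¹' (U n)) ∩ Q).Nonempty := by
    refine ⟨q, mem_iInter.2 fun n => ?_, hq⟩
    rw [hSU] at hy
    have h1 := mem_iInter.1 hy n
    rw [← hUU n] at h1
    have h2 : (y : K) ∈ U n := h1
    rw [← hqy] at h2
    exact h2
  obtain ⟨x, hx1, hx2, hx3⟩ := hS _ hSg hne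
  refine ⟨⟨N • ι x, ⟨ι x, hx2, rfl⟩⟩, ?_, ?_⟩
  · rw [hSU, mem_iInter]
    intro n
    rw [← hUU n]
    exact mem_iInter.1 hx1 n
  · exact ⟨N • x, hx3, map_nsmul _ _ _⟩

end Main

theorem pc5 (h2 : TaskPC2.{u}) (h3 : TaskPC3.{u}) : TaskPC5.{u} := by
  classical
  intro G K _ _ _ _ _ _ ι hι hd hG
  obtain ⟨s, hs, hsmax⟩ := exists_maximal_linearIndepOn ℤ (id : G → G)
  rw [Set.image_id] at hsmax
  have htor : ∀ x : G, ∃ n : ℕ, 0 < n ∧ n • x ∈ Submodule.span ℤ s := by
    intro x
    by_cases hx : x ∈ s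
    · exact ⟨1, one_pos, by rw [one_nsmul]; exact Submodule.subset_span hx⟩
    · obtain ⟨a, ha, hax⟩ := hsmax x hx
      refine ⟨a.natAbs, Int.natAbs_pos.2 ha, ?_⟩
      have hax' : a • x ∈ Submodule.span ℤ s := hax
      rcases Int.natAbs_eq a with h | h
      · rw [h, natCast_zsmul] at hax'
        exact hax'
      · rw [h, neg_smul, natCast_zsmul] at hax'
        simpa using (Submodule.span ℤ s).neg_mem hax'
  have hc : 𝔠 ≤ #s := continuum_le ι h2 hι hd hG s htor
  have hsinf : ℵ₀ ≤ #s := aleph0_lt_continuum.le.trans hc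
  have hli : LinearIndependent ℤ (Subtype.val : s → G) := hs
  let L : AddSubgroup G := (Submodule.span ℤ s).toAddSubgroup
  have hLs : #L ≤ #s := by
    have := mk_span_le s
    rw [max_eq_left hsinf] at this
    exact this
  obtain ⟨N, Q, hN, hQ, hQS⟩ := exists_dense ι hd L htor
  have hdm := dense_map ι Q N L hQS
  have hcomp : CompactSpace (Q.map (nsmulAddMonoidHom (α := K) N)) := by
    refine isCompact_iff_compactSpace.1 (?_ : IsCompact ((Q.map (nsmulAddMonoidHom (α := K) N) : AddSubgroup K) : Set K))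
    have : ((Q.map (nsmulAddMonoidHom (α := K) N) : AddSubgroup K) : Set K) =
        (fun x : K => N • x) '' (Q : Set K) := by
      ext x; simp
    rw [this]
    exact hQ.1.isCompact.image (continuous_nsmul N)
  rcases finite_or_infinite (Q.map (nsmulAddMonoidHom (α := K) N)) with hfin | hinf
  · obtain ⟨J, hJ, hJI⟩ := exists_omega1.{u}
    have hpos : 0 < Nat.card (Q.map (nsmulAddMonoidHom (α := K) N)) := Nat.card_pos
    refine ⟨s, Subtype.val, Nat.card (Q.map (nsmulAddMonoidHom (α := K) N)) * N, J, hli,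
      Nat.mul_pos hpos hN, hJ.ge, hc, ?_, hJI _ hc⟩
    refine (mk_range_le ι hι Q hQ _).trans ?_
    have hsub : #(Q.map (nsmulAddMonoidHom (α := K)
        (Nat.card (Q.map (nsmulAddMonoidHom (α := K) N)) * N))) ≤ 1 := by
      rw [Cardinal.le_one_iff_subsingleton]
      have hz : ∀ z : (Q.map (nsmulAddMonoidHom (α := K)
        (Nat.card (Q.map (nsmulAddMonoidHom (α := K) N)) * N))), (z : K) = 0 := by
        rintro ⟨z, q, hq, rfl⟩
        have hmem : N • q ∈ Q.map (nsmulAddMonoidHom (α := K) N) := ⟨q, hq, rfl⟩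
        have h4 := card_nsmul_eq_zero'
          (x := (⟨N • q, hmem⟩ : Q.map (nsmulAddMonoidHom (α := K) N)))
        have h5 := congrArg Subtype.val h4
        change (Nat.card (Q.map (nsmulAddMonoidHom (α := K) N)) * N) • q = 0
        rw [mul_nsmul']
        simpa using h5
      exact ⟨fun a b => Subtype.ext ((hz a).trans (hz b).symm)⟩
    refine (mul_le_mul' le_rfl hsub).trans ?_
    rw [mul_one, hJ, ← two_power_aleph0]
    exact power_le_power_left two_ne_zero aleph0_lt_aleph_one.le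
  · obtain ⟨J, hJ1, hJ2, hJ3⟩ := h3 (Q.map (nsmulAddMonoidHom (α := K) N)) _ hdm
    refine ⟨s, Subtype.val, N, J, hli, hN, hJ1, hc, ?_, InjFam.mono hJ3 ?_⟩
    · refine (mk_range_le ι hι Q hQ _).trans ?_
      have h6 : (𝔠 : Cardinal.{u}) ≤ 2 ^ #J := by
        rw [← two_power_aleph0]
        exact power_le_power_left two_ne_zero (aleph0_lt_aleph_one.le.trans hJ1)
      refine (mul_le_mul' h6 hJ2).trans ?_
      rw [mul_eq_self]
      exact aleph0_le_continuum.trans h6
    · refine le_trans ?_ hLs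
      choose f hf1 hf2 using fun y : {y : Q.map (nsmulAddMonoidHom (α := K) N) |
        ∃ x ∈ L, ι x = y} => y.2
      refine Cardinal.mk_le_of_injective (f := fun y => (⟨f y, hf1 y⟩ : L)) ?_
      intro y y' hyy
      have h7 : f y = f y' := congrArg Subtype.val hyy
      have h8 : ((y.1 : K)) = y'.1 := by rw [← hf2 y, ← hf2 y', h7]
      exact Subtype.ext (Subtype.ext h8)

end Pool.Agent.H526R3.PC5
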