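import Mathlib

/-! Helper lemmas for the colouring problem of the primes (problem on syndetic difference sets):
shifts spread over well separated scales, with prescribed forbidden differences. -/

set_option autoImplicit false

namespace Pool.Agent.H526R3.Syn

open Finset

/-- one scale: a set of `b` integers, all multiples of `M`, whose pairwise differences stay away from
`D` even after a perturbation of size at most `S`, and exceed `S` -/
theorem one (D : Set ℤ)
    (hgap : ∀ L : ℕ, ∃ m : ℕ, ∀ x : ℤ, (m : ℤ) ≤ x → x ≤ m + L → x ∉ D)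
    (M : ℕ) (hM : 1 ≤ M) (b S : ℕ) :
    ∃ (u : ℕ → ℕ) (B : ℕ), (∀ r, M ∣ u r) ∧ (∀ r < b, u r ≤ B) ∧
      (∀ r < b, ∀ s < r, ∀ x : ℤ, |x| ≤ S → (u r : ℤ) - u s + x ∉ D) ∧
      (∀ r < b, ∀ s < r, (S : ℤ) < (u r : ℤ) - u s) := by
  induction b with
  | zero => exact ⟨fun _ => 0, 0, fun _ => dvd_zero _, by simp, by simp, by simp⟩
  | succ b ih =>
    obtain ⟨u, B, h1, h2, h3, h4⟩ := ih
    obtain ⟨m, hm⟩ := hgap (B + 2 * S + M)
    set v : ℕ := M * ((m + B + S) / M + 1) with hv
    have hv1 : m + B + S < v := by
      rw [hv]; exact Nat.lt_mul_div_succ _ (by omega)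
    have hv2 : v ≤ m + B + S + M := by
      rw [hv, Nat.mul_add, mul_one]
      have := Nat.mul_div_le (m + B + S) M
      omega
    refine ⟨fun r => if r = b then v else u r, B + v, ?_, ?_, ?_, ?_⟩
    · intro r
      by_cases hr : r = b
      · simp only [hr, if_true]; exact Dvd.intro _ rfl
      · simp only [hr, if_false]; exact h1 r
    · intro r hr
      by_cases hrb : r = b
      · simp [hrb]
      · simp only [hrb, if_false]
        have := h2 r (by omega)
        omega
    · intro r hr s hs x hx
      have hsb : s ≠ b := by omega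
      simp only [hsb, if_false]
      by_cases hrb : r = b
      · simp only [hrb, if_true]
        have h5 := h2 s (by omega)
        have h6 := abs_le.1 hx
        apply hm
        · omega
        · push_cast; omega
      · simp only [hrb, if_false]
        exact h3 r (by omega) s hs x hx
    · intro r hr s hs
      have hsb : s ≠ b := by omega
      simp only [hsb, if_false]
      by_cases hrb : r = b
      · simp only [hrb, if_true]
        have h5 := h2 s (by omega)
        omega
      · simp only [hrb, if_false]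
        exact h4 r (by omega) s hs

/-- all scales at once -/
theorem multi (D : ℕ → Set ℤ) (hsym : ∀ j, ∀ x ∈ D j, -x ∈ D j)
    (hgap : ∀ j, ∀ L : ℕ, ∃ m : ℕ, ∀ x : ℤ, (m : ℤ) ≤ x → x ≤ m + L → x ∉ D j)
    (M : ℕ) (hM : 1 ≤ M) (b K : ℕ) :
    ∃ w : ℕ → ℕ → ℕ, (∀ j r, M ∣ w j r) ∧
      (∀ j, ∀ r < b, ∀ s < b, r ≠ s → ∀ x : ℤ, |x| ≤ M * K → (w j r : ℤ) - w j s + x ∉ D j) ∧
      (∀ k, ∀ g g' : ℕ → ℕ, (∀ j < k, g j < b) → (∀ j < k, g' j < b) → ∀ i ≤ K, ∀ i' ≤ K,
        M * i + ∑ j ∈ range k, w j (g j) = M * i' + ∑ j ∈ range k, w j (g' j) →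
        i = i' ∧ ∀ j < k, g j = g' j) := by
  choose u B h1 h2 h3 h4 using fun (j S : ℕ) => one (D j) (hgap j) M hM b S
  obtain ⟨S, hS0, hS1⟩ : ∃ S : ℕ → ℕ, S 0 = M * K ∧ ∀ j, S (j + 1) = S j + B j (S j) :=
    ⟨fun n => Nat.rec (M * K) (fun j s => s + B j s) n, rfl, fun j => rfl⟩
  have hSm : ∀ j, M * K ≤ S j := by
    intro j
    induction j with
    | zero => exact hS0.ge
    | succ j ih => rw [hS1]; omega
  refine ⟨fun j => u j (S j), fun j r => h1 j (S j) r, ?_, ?_⟩
  · intro j r hr s hs hrs x hx
    have hx' : |x| ≤ (S j : ℤ) := by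
      have h5 : ((M * K : ℕ) : ℤ) ≤ (S j : ℤ) := by exact_mod_cast hSm j
      push_cast at h5
      exact hx.trans h5
    rcases lt_or_gt_of_ne hrs with h | h
    · intro hmem
      have h5 := hsym j _ hmem
      apply h3 j (S j) s hs r h (-x) (by rwa [abs_neg])
      convert h5 using 1
      ring
    · exact h3 j (S j) r hr s h x hx'
  · have hbd : ∀ k, ∀ g : ℕ → ℕ, (∀ j < k, g j < b) → ∀ i ≤ K,
        M * i + ∑ j ∈ range k, u j (S j) (g j) ≤ S k := by
      intro k
      induction k with
      | zero =>
        intro g _ i hi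
        simp only [range_zero, sum_empty, add_zero]
        rw [hS0]
        exact Nat.mul_le_mul_left _ hi
      | succ k ih =>
        intro g hg i hi
        rw [sum_range_succ, hS1]
        have h5 := ih g (fun j hj => hg j (by omega)) i hi
        have h6 := h2 k (S k) (g k) (hg k (by omega))
        omega
    intro k
    induction k with
    | zero =>
      intro g g' _ _ i hi i' hi' h
      simp only [range_zero, sum_empty, add_zero] at h
      exact ⟨Nat.eq_of_mul_eq_mul_left (by omega) h, by simp⟩
    | succ k ih =>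
      intro g g' hg hg' i hi i' hi' h
      rw [sum_range_succ, sum_range_succ] at h
      beta_reduce at h
      have h5 := hbd k g (fun j hj => hg j (by omega)) i hi
      have h6 := hbd k g' (fun j hj => hg' j (by omega)) i' hi'
      have h7 : g k = g' k := by
        by_contra hne
        rcases lt_or_gt_of_ne hne with hlt | hlt
        · have := h4 k (S k) (g' k) (hg' k (by omega)) (g k) hlt
          omega
        · have := h4 k (S k) (g k) (hg k (by omega)) (g' k) hlt
          omega
      rw [h7] at h
      obtain ⟨h8, h9⟩ := ih g g' (fun j hj => hg j (by omega)) (fun j hj => hg' j (by omega)) i hi i' hi'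
        (by beta_reduce; omega)
      refine ⟨h8, fun j hj => ?_⟩
      rcases Nat.lt_succ_iff_lt_or_eq.1 hj with hj | rfl
      · exact h9 j hj
      · exact h7

end Pool.Agent.H526R3.Syn
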